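import Pool.Agent.K6.H47.TC.Fin

/-!
# Pure epimorphic images of `T^(X)` are direct limits of modules in `Add T`

For every ring `R`, every tilting module `T` of finite type and every module `N`: `N` is a pure
epimorphic image of a direct sum of copies of `T` if and only if `N` is a direct limit of modules in
`Add T`.

Idea (algebraic small object argument). Let `𝒞` be the set of inclusions `K → P = R ^ k` for which
`P / K` is in the left class `A` of the tilting cotorsion pair `(A, B)`, with `K` finitely presented;
`B` is the class of the modules `M` such that all maps `K → M` extend to `P`. Let `N` be in `B`, with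
chosen extensions `P → N` of the maps `K → N`. A partial algebra `(Y, D)` over `N` is a module
`Y → N` together with some chosen extensions `P → Y` of maps `K → Y` over the chosen ones of `N`.
Its free completion `E(Y, D)` is obtained by attaching cells again and again for the maps without a
chosen extension: it is in `B`, and it is in `A` if `Y` is. If maps from finitely presented modules to
`N` factor through finitely presented modules in `A`, the finite partial algebras over `N` with `Y`
finitely presented in `A` form a filtered category, and `N` is the direct limit of the functor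
`E(Y, D)`, with values in `A ∩ B = Add T`.

For `1`-tilting modules it is enough that `T^⊥` is the class orthogonal to a family of countably
presented modules `U i` (for instance the summands, if `T` is a direct sum of countably presented
modules): `U i` is the direct limit of finitely presented modules `S (i, n)` of the left class, and a
module `M` orthogonal to all `S (i, n)` is a pure submodule of the reduced power `M ^ ℕ / M ^ (ℕ)`, which
is in `B`, since it solves all countable finitely solvable systems. As `B` is closed under direct sums,
the inverse systems `Hom(S (i, n), M)` are Mittag-Leffler, and `M` is in `B`.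
-/

set_option autoImplicit false

universe u

namespace Pool.Agent.Results.MP_46786a_al.FiniteTypeTilting

open Pool.Agent.K6.H47.TL Pool.Agent.K6.H47.TC

/-- `N` is a pure epimorphic image of a direct sum `T^(X)`: the image of a surjective map along which
all maps from finitely presented modules lift -/
def PureImage (R : Type u) [Ring R] (T N : Type u) [AddCommGroup T] [Module R T] [AddCommGroup N]
    [Module R N] : Prop :=
  ∃ (X : Type u) (g : (X →₀ T) →ₗ[R] N), Function.Surjective g ∧
    ∀ (F : Type u) [AddCommGroup F] [Module R F] [Module.FinitePresentation R F] (f : F →ₗ[R] N),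
      ∃ f' : F →ₗ[R] (X →₀ T), g ∘ₗ f' = f

/-- `N` is a direct limit of modules in `Add T` (over a nonempty directed preordered set) -/
def LimAdd (R : Type u) [Ring R] (T N : Type u) [AddCommGroup T] [Module R T] [AddCommGroup N]
    [Module R N] : Prop :=
  ∃ (ι : Type u) (_ : Preorder ι) (_ : IsDirectedOrder ι) (_ : Nonempty ι) (_ : DecidableEq ι)
    (G : ι → Type u) (_ : ∀ i, AddCommGroup (G i)) (_ : ∀ i, Module R (G i))
    (f : ∀ i j, i ≤ j → G i →ₗ[R] G j) (_ : DirectedSystem G fun i j h => f i j h),
    (∀ i, AddT R T (G i)) ∧ Nonempty (Module.DirectLimit G f ≃ₗ[R] N)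

/-- modules of type `FP_∞` are of finite type -/
theorem finiteType_of_fp (R : Type u) [Ring R] (T : Type u) [AddCommGroup T] [Module R T]
    (h : ∀ n, FPn R n T) : FiniteType R T := by
  refine ⟨fun S _ _ => (∀ n, FPn R n S) ∧ ∀ (M : Type u) [AddCommGroup M] [Module R M],
    (∀ i, ExtZ R i T M) → ∀ i, ExtZ R i S M, fun S _ _ hS => hS.1, ?_⟩
  intro M _ _
  constructor
  · intro hM S _ _ hS
    exact hS.2 M hM
  · intro hM
    exact hM T ⟨h, fun M _ _ hM => hM⟩

/-- **Q1.** Let `T` be an `n`-tilting module over any ring. The pure epimorphic images of direct sums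
of copies of `T` are exactly the direct limits of modules in `Add T`, (1) if `T` is of finite type;
(2) in particular if `T` has a resolution by finitely generated projective modules; (3) if `n = 1` and
`T` is of countable type; (4) if `n = 1` and `T` is a direct sum of countably presented modules. -/
theorem result : ∀ (R : Type u) [Ring R] (n : ℕ) (T : Type u) [AddCommGroup T] [Module R T],
    Tilting R n T →
    (FiniteType R T → ∀ (N : Type u) [AddCommGroup N] [Module R N],
      LimAdd R T N ↔ PureImage R T N) ∧
    ((∀ m, FPn R m T) → ∀ (N : Type u) [AddCommGroup N] [Module R N],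
      LimAdd R T N ↔ PureImage R T N) ∧
    (n = 1 → CountType R T → ∀ (N : Type u) [AddCommGroup N] [Module R N],
      LimAdd R T N ↔ PureImage R T N) ∧
    (n = 1 → ∀ (I : Type u) (U : I → Type u) [∀ i, AddCommGroup (U i)] [∀ i, Module R (U i)],
      (∀ i, CountPres R (U i)) → (T ≃ₗ[R] (Π₀ i, U i)) →
      ∀ (N : Type u) [AddCommGroup N] [Module R N], LimAdd R T N ↔ PureImage R T N) := by
  intro R _ n T _ _ hT
  have key : FiniteType R T → ∀ (N : Type u) [AddCommGroup N] [Module R N],
      LimAdd R T N ↔ PureImage R T N := by
    intro hF N _ _
    constructor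
    · rintro ⟨ι, i1, i2, i3, i4, G, i5, i6, f, i7, hG, ⟨e⟩⟩
      exact Conv.conv f hG e
    · rintro ⟨X, g, hg, hp⟩
      exact final R n T hT hF X N g hg hp
  refine ⟨key, fun h => key (finiteType_of_fp R T h), ?_, ?_⟩
  · rintro rfl h N _ _
    constructor
    · rintro ⟨ι, i1, i2, i3, i4, G, i5, i6, f, i7, hG, ⟨e⟩⟩
      exact Conv.conv f hG e
    · rintro ⟨X, g, hg, hp⟩
      obtain ⟨𝒞, hfp, hCE⟩ := cells_type_all R T hT h
      exact final' R 1 T hT 𝒞 hfp hCE X N g hg hp
  · rintro rfl I U _ _ hU e N _ _
    constructor
    · rintro ⟨ι, i1, i2, i3, i4, G, i5, i6, f, i7, hG, ⟨e'⟩⟩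
      exact Conv.conv f hG e'
    · rintro ⟨X, g, hg, hp⟩
      obtain ⟨𝒞, hfp, hCE⟩ := cells_sum_all R T hT I U hU e
      exact final' R 1 T hT 𝒞 hfp hCE X N g hg hp

end Pool.Agent.Results.MP_46786a_al.FiniteTypeTilting
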